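import Pool.Agent.H5.Iso.Inter

/-! Isospectral non-isometric compact hyperbolic surfaces of genus three. -/

set_option autoImplicit false

namespace Pool.Agent.Results.MP_d2545a_gt.GenusThree

open Pool.Agent.H5.Iso UpperHalfPlane

theorem props {σ : Fin 3 → Fin 96 → Fin 96} {c : Fin 3 → Fin 96 → (Fin 6 → ℤ)}
    {wd : Fin 96 → List (Fin 3)} {basis : Fin 6 → Fin 3 × Fin 96} {M : ℕ}
    {steps : List (Fin 3 × Fin 96)} (C : Cert σ c wd basis M steps)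
    (hc : ∀ i x, (σ i x).val < 48 ↔ ¬ x.val < 48) (hf : AllFree σ) :
      (∀ γ ∈ C.perm.Lam.map rho, ∃ a b c d : ℝ, a * d - b * c = 1 ∧
          ∀ z : UpperHalfPlane,
            ((γ z : UpperHalfPlane) : ℂ) = ((a : ℂ) * (z : ℂ) + (b : ℂ)) / ((c : ℂ) * (z : ℂ) + (d : ℂ))) ∧
      (∀ γ ∈ C.perm.Lam.map rho, γ ≠ 1 → ∀ z : UpperHalfPlane, γ z ≠ z) ∧
      (∀ K : Set UpperHalfPlane, IsCompact K →
          {γ : UpperHalfPlane ≃ᵢ UpperHalfPlane | γ ∈ C.perm.Lam.map rho ∧ (⇑γ '' K ∩ K).Nonempty}.Finite) ∧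
      (∃ K : Set UpperHalfPlane, IsCompact K ∧ ∀ z : UpperHalfPlane, ∃ γ ∈ C.perm.Lam.map rho, γ z ∈ K) ∧
      Nonempty (Abelianization (C.perm.Lam.map rho) ≃* Multiplicative (Fin 6 → ℤ)) := by
  refine ⟨?_, ?_, ?_, ?_, ?_⟩
  · rintro γ ⟨g, hg, rfl⟩
    exact Mob_of_even (par_Lam C.perm hc hg)
  · rintro γ ⟨g, hg, rfl⟩ hne z hz
    apply hne
    rw [no_fixed C.perm hf hg hz, map_one]
  · intro K hK
    refine (proper K hK).subset ?_
    rintro γ ⟨⟨g, _, rfl⟩, h2⟩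
    exact ⟨⟨g, rfl⟩, h2⟩
  · exact cocompact C
  · obtain ⟨e⟩ := C.abelianization
    exact ⟨((C.perm.Lam.equivMapOfInjective rho rho_injective).abelianizationCongr).symm.trans e⟩

/-- There are two torsion-free cocompact orientation-preserving Fuchsian groups of genus 3
(abelianization `ℤ⁶`) whose quotients have equal hyperbolic Laplace eigenspace dimensions for
every eigenvalue, yet no isometry of the hyperbolic plane conjugates one group onto the other. -/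
theorem result :
  ∃ Γ₁ Γ₂ : Subgroup (UpperHalfPlane ≃ᵢ UpperHalfPlane),
    (∀ Γ ∈ ({Γ₁, Γ₂} : Set (Subgroup (UpperHalfPlane ≃ᵢ UpperHalfPlane))),
      (∀ γ ∈ Γ, ∃ a b c d : ℝ, a * d - b * c = 1 ∧
          ∀ z : UpperHalfPlane,
            ((γ z : UpperHalfPlane) : ℂ) = ((a : ℂ) * (z : ℂ) + (b : ℂ)) / ((c : ℂ) * (z : ℂ) + (d : ℂ))) ∧
      (∀ γ ∈ Γ, γ ≠ 1 → ∀ z : UpperHalfPlane, γ z ≠ z) ∧
      (∀ K : Set UpperHalfPlane, IsCompact K →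
          {γ : UpperHalfPlane ≃ᵢ UpperHalfPlane | γ ∈ Γ ∧ (⇑γ '' K ∩ K).Nonempty}.Finite) ∧
      (∃ K : Set UpperHalfPlane, IsCompact K ∧ ∀ z : UpperHalfPlane, ∃ γ ∈ Γ, γ z ∈ K) ∧
      Nonempty (Abelianization Γ ≃* Multiplicative (Fin 6 → ℤ))) ∧
    (∀ μ : ℝ,
      Module.rank ℝ (Submodule.span ℝ {f : UpperHalfPlane → ℝ | ∃ F : ℂ → ℝ,
          ContDiffOn ℝ 2 F {w : ℂ | 0 < w.im} ∧
          (∀ z : UpperHalfPlane, f z = F (z : ℂ)) ∧
          (∀ γ ∈ Γ₁, ∀ z : UpperHalfPlane, f (γ z) = f z) ∧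
          ∀ z : UpperHalfPlane,
            -((z : ℂ).im ^ 2 * (iteratedFDeriv ℝ 2 F (z : ℂ) ![1, 1]
              + iteratedFDeriv ℝ 2 F (z : ℂ) ![Complex.I, Complex.I])) = μ * f z})
      =
      Module.rank ℝ (Submodule.span ℝ {f : UpperHalfPlane → ℝ | ∃ F : ℂ → ℝ,
          ContDiffOn ℝ 2 F {w : ℂ | 0 < w.im} ∧
          (∀ z : UpperHalfPlane, f z = F (z : ℂ)) ∧
          (∀ γ ∈ Γ₂, ∀ z : UpperHalfPlane, f (γ z) = f z) ∧
          ∀ z : UpperHalfPlane,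
            -((z : ℂ).im ^ 2 * (iteratedFDeriv ℝ 2 F (z : ℂ) ![1, 1]
              + iteratedFDeriv ℝ 2 F (z : ℂ) ![Complex.I, Complex.I])) = μ * f z})) ∧
    ¬ ∃ φ : UpperHalfPlane ≃ᵢ UpperHalfPlane,
        ∀ γ : UpperHalfPlane ≃ᵢ UpperHalfPlane, γ ∈ Γ₁ ↔ φ * γ * φ⁻¹ ∈ Γ₂ := by
  refine ⟨D1.cert.perm.Lam.map rho, D2.cert.perm.Lam.map rho, ?_, ?_, ?_⟩
  · intro Γ hΓ
    rcases hΓ with rfl | rfl
    · exact props D1.cert col1 free1
    · exact props D2.cert col2 free2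
  · exact isospectral
  · exact not_isometric

end Pool.Agent.Results.MP_d2545a_gt.GenusThree
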